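import Pool.Agent.Y881.LW.Size

/-! Project LW2: all estimates (helper881). -/

set_option autoImplicit false

open Finset

namespace Pool.Agent.Y881.LW

open Pool.Agent.Y823.LW

/-- the family, with all estimates -/
theorem core (k n : ℕ) (hn : 24 ≤ n) :
    (∀ j, 0 < aP k n j) ∧ (∀ j, bP k n j ≠ 0) ∧
    (∏ j, ((aP k n j : ℤ) : ℝ) ^ (bP k n j)) ≠ 1 ∧
    (2:ℝ)^n ≤ (∏ j, |((bP k n j : ℤ) : ℝ)|) * (∏ j, |((aP k n j : ℤ) : ℝ)|) ∧
    |(∏ j, ((aP k n j : ℤ) : ℝ) ^ (bP k n j)) - 1| ≤ 10^120 *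
      Real.log ((∏ j, |((bP k n j : ℤ) : ℝ)|) * (∏ j, |((aP k n j : ℤ) : ℝ)|)) ^ 2 /
      ((∏ j, |((bP k n j : ℤ) : ℝ)|) * (∏ j, |((aP k n j : ℤ) : ℝ)|)) ^ (8/7 : ℝ) ∧
    ((∏ j, |((bP k n j : ℤ) : ℝ)|) * (∏ j, |((aP k n j : ℤ) : ℝ)|)) ^ (1/14 : ℝ) ≤
      10^6 * (Real.log ((∏ j, |((bP k n j : ℤ) : ℝ)|) * (∏ j, |((aP k n j : ℤ) : ℝ)|)) *
        ((Finset.univ.sup fun j => (bP k n j).natAbs : ℕ) : ℝ)) := by
  have h : (10:ℝ)^7 ≤ (2:ℝ)^n := by exact_mod_cast two_pow_ge n hn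
  have hF := F_pos ((2:ℝ)^n) h
  have hs := size_le k n hn
  have hl := le_size k n hn
  have hB := le_sup k n hn
  have hP := prodP k n hn
  have hn1 : (1:ℝ) ≤ n := by
    have : 1 ≤ n := by omega
    exact_mod_cast this
  have hlog : (n:ℝ) * Real.log 2 ≤ Real.log ((∏ j, |((bP k n j : ℤ) : ℝ)|) * (∏ j, |((aP k n j : ℤ) : ℝ)|)) := by
    rw [← Real.log_pow]
    exact Real.log_le_log (by positivity) hl
  generalize hX : (∏ j, |((bP k n j : ℤ) : ℝ)|) * (∏ j, |((aP k n j : ℤ) : ℝ)|) = X at *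
  generalize ((Finset.univ.sup fun j => (bP k n j).natAbs : ℕ) : ℝ) = B at *
  generalize htd : (2:ℝ)^n = t at *
  have ht0 : (0:ℝ) < t := lt_of_lt_of_le (by norm_num) h
  have hX0 : 0 < X := lt_of_lt_of_le ht0 hl
  have hl2 := Real.log_two_gt_d9
  have hnX : (n:ℝ) ≤ 2 * Real.log X := by nlinarith
  have hroot : X ^ (1/14 : ℝ) ≤ 10^5 * (n * t) := by
    have e1 : X ≤ (10^5 * (n * t)) ^ 14 := by
      have e2 : (n:ℝ) ≤ (n:ℝ)^14 := by
        calc (n:ℝ) = (n:ℝ)^1 := (pow_one _).symm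
          _ ≤ (n:ℝ)^14 := pow_le_pow_right₀ hn1 (by norm_num)
      calc X ≤ 10^70 * (n * t^14) := hs
        _ ≤ 10^70 * ((n:ℝ)^14 * t^14) := by gcongr
        _ = (10^5 * (n * t)) ^ 14 := by ring
    calc X ^ (1/14 : ℝ) ≤ ((10^5 * (n * t)) ^ 14) ^ (1/14 : ℝ) :=
          Real.rpow_le_rpow hX0.le e1 (by norm_num)
      _ = 10^5 * (n * t) := by
          rw [← Real.rpow_natCast, ← Real.rpow_mul (by positivity)]
          norm_num
  refine ⟨aP_pos k n hn, bP_ne k n hn, ?_, hl, ?_, ?_⟩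
  · rw [hP]
    intro h1
    rw [Real.exp_eq_one_iff] at h1
    exact hF.1.ne' h1
  · rw [hP]
    have hF1 : F t ≤ 1 := by
      refine hF.2.trans ?_
      rw [div_le_one (by positivity)]
      calc (10:ℝ)^32 ≤ (10^7)^16 := by norm_num
        _ ≤ t^16 := by gcongr
    have hexp : |Real.exp (F t) - 1| ≤ 2 * (10^32 / t^16) := by
      have h1 : |F t| ≤ 1 := by rw [abs_of_pos hF.1]; exact hF1
      have h2 := Real.abs_exp_sub_one_le h1
      rw [abs_of_pos hF.1] at h2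
      linarith [hF.2]
    refine hexp.trans ?_
    have e2 : X ^ (8/7 : ℝ) ≤ 10^80 * ((n:ℝ)^2 * t^16) := by
      have e3 : X ^ (8/7 : ℝ) ≤ (10^70 * (n * t^14)) ^ (8/7 : ℝ) :=
        Real.rpow_le_rpow hX0.le hs (by norm_num)
      have e4 : (10^70 * ((n:ℝ) * t^14)) ^ (8/7 : ℝ) = (n:ℝ) ^ (8/7 : ℝ) * (10^80 * t^16) := by
        have e5 : 10^70 * ((n:ℝ) * t^14) = n * (10^5 * t)^14 := by ring
        rw [e5, Real.mul_rpow (by positivity) (by positivity), ← Real.rpow_natCast (10^5 * t), ← Real.rpow_mul (by positivity)]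
        congr 1
        have e6 : ((14:ℕ):ℝ) * (8/7) = ((16:ℕ):ℝ) := by norm_num
        rw [e6, Real.rpow_natCast]
        ring
      have e7 : (n:ℝ) ^ (8/7 : ℝ) ≤ (n:ℝ)^2 := by
        rw [← Real.rpow_natCast]
        exact Real.rpow_le_rpow_of_exponent_le hn1 (by norm_num)
      calc X ^ (8/7 : ℝ) ≤ (n:ℝ) ^ (8/7 : ℝ) * (10^80 * t^16) := by rw [← e4]; exact e3
        _ ≤ (n:ℝ)^2 * (10^80 * t^16) := by gcongr
        _ = _ := by ring
    have hXp : 0 < X ^ (8/7 : ℝ) := Real.rpow_pos_of_pos hX0 _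
    have e8 : (n:ℝ)^2 ≤ 4 * Real.log X ^ 2 := by
      have : (n:ℝ)^2 ≤ (2 * Real.log X)^2 := pow_le_pow_left₀ (by linarith) hnX 2
      linarith [this, (by ring : (2 * Real.log X)^2 = 4 * Real.log X ^ 2)]
    rw [← mul_div_assoc, div_le_div_iff₀ (by positivity) hXp]
    calc 2 * 10^32 * X ^ (8/7 : ℝ) ≤ 2 * 10^32 * (10^80 * ((n:ℝ)^2 * t^16)) := by gcongr
      _ = 2 * 10^112 * ((n:ℝ)^2 * t^16) := by ring
      _ ≤ 2 * 10^112 * ((4 * Real.log X ^ 2) * t^16) := by gcongr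
      _ = 8 * 10^112 * (Real.log X ^ 2 * t^16) := by ring
      _ ≤ 10^120 * (Real.log X ^ 2 * t^16) := by
          refine mul_le_mul_of_nonneg_right (by norm_num) (by positivity)
      _ = 10^120 * Real.log X ^ 2 * t^16 := by ring
  · have hlogX : 0 ≤ Real.log X := by linarith
    calc X ^ (1/14 : ℝ) ≤ 10^5 * (n * t) := hroot
      _ ≤ 10^5 * ((2 * Real.log X) * B) := by gcongr
      _ = 2 * 10^5 * (Real.log X * B) := by ring
      _ ≤ 10^6 * (Real.log X * B) := by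
          have hB0 : 0 ≤ B := ht0.le.trans hB
          refine mul_le_mul_of_nonneg_right (by norm_num) (by positivity)

end Pool.Agent.Y881.LW
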