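import Pool.Agent.Y823.LW.Fam

/-!
# The family of `Pool.Agent.Y823.LW` at the powers of two

For `t = 2 ^ n` the last factor `t ^ (-117318768)` is written `2 ^ (-117318768 n)`; this lowers the size of the
product from `t ^ 15` to `n t ^ 14`.
-/

set_option autoImplicit false

open Finset

namespace Pool.Agent.Y881.LW

open Pool.Agent.Y823.LW

/-- The eight positive integers at the parameter `n`. -/
def aN (n : ℕ) : Fin 8 → ℤ :=
  ![2^n - 60, 2^n + 60, 2^n - 30, 2^n + 30, (2^n)^2 - 540, (2^n)^2 - 2250, (2^n)^2 - 3300, 2]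

/-- The eight integer exponents at the parameter `n`. -/
def bN (n : ℕ) : Fin 8 → ℤ :=
  ![5148297 * 2^n + (-308224840), (-5148297) * 2^n + (-308224840),
    (-10296594) * 2^n + 409003595, 10296594 * 2^n + 409003595,
    -144375000, 70467584, 31788045, -117318768 * n]

theorem two_pow_ge (n : ℕ) (hn : 24 ≤ n) : (10:ℤ)^7 ≤ 2^n := by
  calc (10:ℤ)^7 ≤ 2^24 := by norm_num
    _ ≤ 2^n := pow_le_pow_right₀ (by norm_num) hn

theorem aN_castSucc (n : ℕ) (j : Fin 7) : aN n j.castSucc = aZ (2^n) j.castSucc := by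
  fin_cases j <;> simp [aN, aZ]

theorem bN_castSucc (n : ℕ) (j : Fin 7) : bN n j.castSucc = b (2^n) j.castSucc := by
  fin_cases j <;> simp [bN, b]

theorem aN_last (n : ℕ) : aN n (Fin.last 7) = 2 := by simp [aN]

theorem bN_last (n : ℕ) : bN n (Fin.last 7) = -117318768 * n := by simp [bN]

theorem aN_pos (n : ℕ) (hn : 24 ≤ n) (j : Fin 8) : 0 < aN n j := by
  refine Fin.lastCases ?_ (fun i => ?_) j
  · rw [aN_last]; norm_num
  · rw [aN_castSucc]; exact aZ_pos _ (two_pow_ge n hn) _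

theorem bN_ne (n : ℕ) (hn : 24 ≤ n) (j : Fin 8) : bN n j ≠ 0 := by
  refine Fin.lastCases ?_ (fun i => ?_) j
  · rw [bN_last]
    have : (n : ℤ) ≠ 0 := by
      have : n ≠ 0 := by omega
      exact_mod_cast this
    exact mul_ne_zero (by norm_num) this
  · rw [bN_castSucc]; exact b_ne _ (two_pow_ge n hn) _

theorem pow_last (n : ℕ) (e : ℤ) : (((2:ℤ) : ℤ) : ℝ) ^ (e * (n:ℤ)) = ((((2:ℤ)^n : ℤ)) : ℝ) ^ e := by
  rw [mul_comm e, zpow_mul, zpow_natCast, Int.cast_pow]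

theorem aZ_last (n : ℕ) : aZ ((2:ℤ)^n) (Fin.last 7) = 2^n := by simp [aZ]

theorem b_last (n : ℕ) : b ((2:ℤ)^n) (Fin.last 7) = -117318768 := by simp [b]

/-- comparison of products of powers which agree up to the last factor -/
theorem prod_cmp (x y : Fin 8 → ℝ) (e f : Fin 8 → ℤ) (h1 : ∀ j : Fin 7, x j.castSucc = y j.castSucc)
    (h2 : ∀ j : Fin 7, e j.castSucc = f j.castSucc)
    (h3 : x (Fin.last 7) ^ e (Fin.last 7) = y (Fin.last 7) ^ f (Fin.last 7)) :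
    ∏ j, x j ^ e j = ∏ j, y j ^ f j := by
  rw [Fin.prod_univ_castSucc, Fin.prod_univ_castSucc (f := fun j => y j ^ f j), h3]
  congr 1
  refine Finset.prod_congr rfl fun j _ => ?_
  rw [h1, h2]

theorem prod_eqN (n : ℕ) (hn : 24 ≤ n) :
    ∏ j, ((aN n j : ℤ) : ℝ) ^ (bN n j) = Real.exp (F ((2:ℝ)^n)) := by
  have h := prod_eq ((2:ℤ)^n) (two_pow_ge n hn)
  have hc : (((2:ℤ)^n : ℤ) : ℝ) = (2:ℝ)^n := by rw [Int.cast_pow, Int.cast_ofNat]
  rw [hc] at h
  refine Eq.trans ?_ h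
  refine prod_cmp (fun j => ((aN n j : ℤ) : ℝ)) (fun j => ((aZ ((2:ℤ)^n) j : ℤ) : ℝ)) (bN n) (b ((2:ℤ)^n))
    (fun j => ?_) (fun j => bN_castSucc n j) ?_
  · show ((aN n j.castSucc : ℤ) : ℝ) = ((aZ ((2:ℤ)^n) j.castSucc : ℤ) : ℝ)
    rw [aN_castSucc]
  · show ((aN n (Fin.last 7) : ℤ) : ℝ) ^ (bN n (Fin.last 7)) =
      ((aZ ((2:ℤ)^n) (Fin.last 7) : ℤ) : ℝ) ^ (b ((2:ℤ)^n) (Fin.last 7))
    rw [aN_last, bN_last, aZ_last, b_last]
    exact pow_last n _


end Pool.Agent.Y881.LW
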