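import Pool.Agent.Y823.LW.Series

/-!
# A family of linear forms in six logarithms

`G t = ∑ b_j(t) log a_j(t)` with `a_j = t ∓ 6, t ∓ 3, t² - 21, t` and `b_j` linear in `t` for the first four and constant
for the others; `G t` is about `4408992 / t ^ 10`.
-/

set_option autoImplicit false

open Finset

namespace Pool.Agent.Y881.LW.Six

open Pool.Agent.Y823.LW

/-- Truncated odd series. -/
theorem odd_bound (x : ℝ) (h0 : 0 < x) (h1 : x ≤ 1/2) :
    |Real.log (1+x) - Real.log (1-x)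
      - 2 * (x + x^3/3 + x^5/5 + x^7/7 + x^9/9 + x^11/11)|
      ≤ 4 * x^13 := by
  have hx1 : |x| < 1 := by rw [abs_of_pos h0]; linarith
  have hx2 : |(-x)| < 1 := by rw [abs_neg]; exact hx1
  have e1 := Real.abs_log_sub_add_sum_range_le hx1 12
  have e2 := Real.abs_log_sub_add_sum_range_le hx2 12
  rw [abs_neg] at e2
  rw [abs_of_pos h0] at e1 e2
  have e3 : x ^ (12+1) / (1 - x) ≤ 2 * x^13 := by
    rw [div_le_iff₀ (by linarith)]
    have h3 : 0 < x^13 := by positivity
    have h4 : x ^ (12+1) = x^13 := by norm_num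
    rw [h4]
    nlinarith [mul_nonneg h3.le (by linarith : (0:ℝ) ≤ 1/2 - x)]
  simp only [Finset.sum_range_succ, Finset.sum_range_zero] at e1 e2
  rw [sub_neg_eq_add] at e2
  rw [abs_le] at e1 e2 ⊢
  push_cast at e1 e2
  norm_num at e1 e2
  norm_num at e3
  constructor
  · linarith [e1.1, e1.2, e2.1, e2.2]
  · linarith [e1.1, e1.2, e2.1, e2.2]

/-- Truncated even series. -/
theorem even_bound (y : ℝ) (h0 : 0 < y) (h1 : y ≤ 1/2) :
    |Real.log (1-y) - (-(y + y^2/2 + y^3/3 + y^4/4 + y^5/5))| ≤ 2 * y^6 := by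
  have hx1 : |y| < 1 := by rw [abs_of_pos h0]; linarith
  have e1 := Real.abs_log_sub_add_sum_range_le hx1 5
  rw [abs_of_pos h0] at e1
  have e3 : y ^ (5+1) / (1 - y) ≤ 2 * y^6 := by
    rw [div_le_iff₀ (by linarith)]
    have h3 : 0 < y^6 := by positivity
    have h4 : y ^ (5+1) = y^6 := by norm_num
    rw [h4]
    nlinarith [mul_nonneg h3.le (by linarith : (0:ℝ) ≤ 1/2 - y)]
  simp only [Finset.sum_range_succ, Finset.sum_range_zero] at e1
  rw [abs_le] at e1 ⊢
  push_cast at e1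
  norm_num at e1
  norm_num at e3
  constructor
  · linarith [e1.1, e1.2]
  · linarith [e1.1, e1.2]

theorem main_identity (t : ℝ) (ht : t ≠ 0) :
    35 * t * (2 * (6/t + (6/t)^3/3 + (6/t)^5/5 + (6/t)^7/7 + (6/t)^9/9 + (6/t)^11/11))
    + (-70) * t * (2 * (3/t + (3/t)^3/3 + (3/t)^5/5 + (3/t)^7/7 + (3/t)^9/9 + (3/t)^11/11))
    + 196 * (-(36/t^2 + (36/t^2)^2/2 + (36/t^2)^3/3 + (36/t^2)^4/4 + (36/t^2)^5/5))
    + (-175) * (-(9/t^2 + (9/t^2)^2/2 + (9/t^2)^3/3 + (9/t^2)^4/4 + (9/t^2)^5/5))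
    + (-81) * (-(21/t^2 + (21/t^2)^2/2 + (21/t^2)^3/3 + (21/t^2)^4/4 + (21/t^2)^5/5)) =
    4408992 / t^10 := by
  field_simp
  ring

/-- The value of the linear form at a real number `t`. -/
noncomputable def G (t : ℝ) : ℝ :=
  (-35 * t + 196) * Real.log (t - 6)
    + (35 * t + 196) * Real.log (t + 6)
    + (70 * t + (-175)) * Real.log (t - 3)
    + (-70 * t + (-175)) * Real.log (t + 3)
    + (-81) * Real.log (t^2 - 21)
    + 120 * Real.log t

theorem G_eq (t : ℝ) (ht : 10^5 ≤ t) :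
    G t = 35 * t * (Real.log (1 + 6/t) - Real.log (1 - 6/t))
    + (-70) * t * (Real.log (1 + 3/t) - Real.log (1 - 3/t))
    + 196 * Real.log (1 - 36/t^2)
    + (-175) * Real.log (1 - 9/t^2)
    + (-81) * Real.log (1 - 21/t^2) := by
  have ht0 : 0 < t := lt_of_lt_of_le (by norm_num) ht
  have ht2 : (10:ℝ)^10 ≤ t^2 := by
    calc (10:ℝ)^10 = (10^5)^2 := by norm_num
      _ ≤ t^2 := by gcongr
  have h1 : (36:ℝ) = 6^2 := by norm_num
  have h2 : (9:ℝ) = 3^2 := by norm_num
  rw [h1, h2, log_one_sub_sq t 6 ht0 (by norm_num) (by linarith),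
    log_one_sub_sq t 3 ht0 (by norm_num) (by linarith)]
  unfold G
  rw [log_sub_eq t 6 ht0 (by linarith), log_add_eq t 6 ht0 (by norm_num),
    log_sub_eq t 3 ht0 (by linarith), log_add_eq t 3 ht0 (by norm_num),
    log_sq_sub_eq t 21 ht0 (by linarith)]
  ring

theorem G_est (t : ℝ) (ht : 10^5 ≤ t) :
    |G t - 4408992 / t^10| ≤ 10^14 / t^12 := by
  have ht0 : 0 < t := lt_of_lt_of_le (by norm_num) ht
  have ht2 : (10:ℝ)^10 ≤ t^2 := by
    calc (10:ℝ)^10 = (10^5)^2 := by norm_num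
      _ ≤ t^2 := by gcongr
  have hid := main_identity t ht0.ne'
  have e0 := term_bound (35 * t) _ _ _ (10^2 * t) (odd_bound (6/t) (by positivity) (by rw [div_le_iff₀ ht0]; linarith)) (by rw [abs_le]; constructor <;> linarith) (by positivity)
  have e1 := term_bound ((-70) * t) _ _ _ (10^2 * t) (odd_bound (3/t) (by positivity) (by rw [div_le_iff₀ ht0]; linarith)) (by rw [abs_le]; constructor <;> linarith) (by positivity)
  have e2 := term_bound 196 _ _ _ (10^3) (even_bound (36/t^2) (by positivity) (by rw [div_le_iff₀ (by positivity)]; linarith)) (by rw [abs_le]; constructor <;> norm_num) (by positivity)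
  have e3 := term_bound (-175) _ _ _ (10^3) (even_bound (9/t^2) (by positivity) (by rw [div_le_iff₀ (by positivity)]; linarith)) (by rw [abs_le]; constructor <;> norm_num) (by positivity)
  have e4 := term_bound (-81) _ _ _ (10^3) (even_bound (21/t^2) (by positivity) (by rw [div_le_iff₀ (by positivity)]; linarith)) (by rw [abs_le]; constructor <;> norm_num) (by positivity)
  have f0 : 10^2 * t * (4 * (6/t)^13) ≤ (10^13) / t^12 := by
    have : 10^2 * t * (4 * (6/t)^13) = (4 * 10^2 * 6^13) / t^12 := by field_simp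
    rw [this]
    gcongr
    norm_num
  have f1 : 10^2 * t * (4 * (3/t)^13) ≤ (10^13) / t^12 := by
    have : 10^2 * t * (4 * (3/t)^13) = (4 * 10^2 * 3^13) / t^12 := by field_simp
    rw [this]
    gcongr
    norm_num
  have f2 : 10^3 * (2 * (36/t^2)^6) ≤ (10^13) / t^12 := by
    have : 10^3 * (2 * ((36:ℝ)/t^2)^6) = (2 * 10^3 * 36^6) / t^12 := by field_simp
    rw [this]
    gcongr
    norm_num
  have f3 : 10^3 * (2 * (9/t^2)^6) ≤ (10^13) / t^12 := by
    have : 10^3 * (2 * ((9:ℝ)/t^2)^6) = (2 * 10^3 * 9^6) / t^12 := by field_simp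
    rw [this]
    gcongr
    norm_num
  have f4 : 10^3 * (2 * (21/t^2)^6) ≤ (10^13) / t^12 := by
    have : 10^3 * (2 * ((21:ℝ)/t^2)^6) = (2 * 10^3 * 21^6) / t^12 := by field_simp
    rw [this]
    gcongr
    norm_num
  have hfin : 5 * (10^13 / t^12) ≤ 10^14 / t^12 := by
    have h8 : 5 * ((10:ℝ)^13 / t^12) = (5 * 10^13) / t^12 := by ring
    rw [h8]
    gcongr
    norm_num
  rw [G_eq t ht]
  rw [abs_le] at *
  constructor
  · linarith [e0.1, e1.1, e2.1, e3.1, e4.1]
  · linarith [e0.2, e1.2, e2.2, e3.2, e4.2]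

theorem G_pos (t : ℝ) (ht : 10^5 ≤ t) : 0 < G t ∧ G t ≤ 10^7 / t^10 := by
  have ht0 : 0 < t := lt_of_lt_of_le (by norm_num) ht
  have ht2 : (10:ℝ)^10 ≤ t^2 := by
    calc (10:ℝ)^10 = (10^5)^2 := by norm_num
      _ ≤ t^2 := by gcongr
  have h := G_est t ht
  have h2 : (10:ℝ)^14 / t^12 ≤ 10^4 / t^10 := by
    rw [div_le_div_iff₀ (by positivity) (by positivity)]
    have : (10:ℝ)^4 * t^12 = (10^4 * t^2) * t^10 := by ring
    rw [this]
    gcongr
    linarith
  rw [abs_le] at h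
  constructor
  · have h3 : (10:ℝ)^4 / t^10 < 4408992 / t^10 := by
      gcongr
      norm_num
    linarith [h.1]
  · have h3 : (4408992:ℝ) / t^10 + 10^4 / t^10 ≤ 10^7 / t^10 := by
      rw [← add_div]
      gcongr
      norm_num
    linarith [h.2]

end Pool.Agent.Y881.LW.Six
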