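import Pool.Agent.Y881.LW.Six


/-!
# Six integers and exponents with `∏ a ^ b = exp (G (2 ^ n))`
-/

set_option autoImplicit false

open Finset

namespace Pool.Agent.Y881.LW.Six

/-- The six positive integers at the parameter `n`. -/
def aN (n : ℕ) : Fin 6 → ℤ :=
  ![2^n - 6, 2^n + 6, 2^n - 3, 2^n + 3, (2^n)^2 - 21, 2]

/-- The six integer exponents at the parameter `n`. -/
def bN (n : ℕ) : Fin 6 → ℤ :=
  ![-35 * 2^n + 196, 35 * 2^n + 196, 70 * 2^n + (-175), -70 * 2^n + (-175), -81, 120 * n]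

theorem two_pow_ge (n : ℕ) (hn : 17 ≤ n) : (10:ℤ)^5 ≤ 2^n := by
  calc (10:ℤ)^5 ≤ 2^17 := by norm_num
    _ ≤ 2^n := pow_le_pow_right₀ (by norm_num) hn

theorem aN_pos (n : ℕ) (hn : 17 ≤ n) (j : Fin 6) : 0 < aN n j := by
  have h := two_pow_ge n hn
  have h2 : (10:ℤ)^10 ≤ (2^n)^2 := by
    calc (10:ℤ)^10 = (10^5)^2 := by norm_num
      _ ≤ (2^n)^2 := pow_le_pow_left₀ (by norm_num) h 2
  fin_cases j <;> simp [aN] <;> linarith

theorem bN_ne (n : ℕ) (hn : 17 ≤ n) (j : Fin 6) : bN n j ≠ 0 := by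
  have h := two_pow_ge n hn
  obtain ⟨t, ht⟩ : ∃ t : ℤ, t = 2^n := ⟨_, rfl⟩
  fin_cases j <;> simp [bN, ← ht] <;> rw [← ht] at h <;> omega

theorem sum_eqN (n : ℕ) :
    ∑ j, ((bN n j : ℤ) : ℝ) * Real.log ((aN n j : ℤ) : ℝ) = G ((2:ℝ)^n) := by
  have hl : Real.log ((2:ℝ)^n) = n * Real.log 2 := Real.log_pow _ _
  unfold G
  rw [hl]
  simp only [Fin.sum_univ_succ, Fin.sum_univ_zero]
  simp [aN, bN, Fin.succ]
  ring

theorem prod_eqN (n : ℕ) (hn : 17 ≤ n) :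
    ∏ j, ((aN n j : ℤ) : ℝ) ^ (bN n j) = Real.exp (G ((2:ℝ)^n)) := by
  rw [← sum_eqN n, Real.exp_sum]
  refine Finset.prod_congr rfl fun j _ => ?_
  have h : (0:ℝ) < ((aN n j : ℤ) : ℝ) := by exact_mod_cast aN_pos n hn j
  rw [← Real.rpow_intCast, Real.rpow_def_of_pos h, mul_comm]

theorem prodA_leN (n : ℕ) (hn : 17 ≤ n) :
    ∏ j, |((aN n j : ℤ) : ℝ)| ≤ 32 * ((2:ℝ)^n)^6 := by
  have h : (10:ℝ)^5 ≤ (2:ℝ)^n := by exact_mod_cast two_pow_ge n hn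
  obtain ⟨t, ht⟩ : ∃ t : ℝ, t = (2:ℝ)^n := ⟨_, rfl⟩
  rw [← ht] at h ⊢
  have hp : ∀ j, (0:ℝ) < ((aN n j : ℤ) : ℝ) := fun j => by exact_mod_cast aN_pos n hn j
  have habs : ∏ j, |((aN n j : ℤ) : ℝ)| = ∏ j, ((aN n j : ℤ) : ℝ) :=
    Finset.prod_congr rfl fun j _ => abs_of_pos (hp j)
  rw [habs]
  have h0 : ((aN n 0 : ℤ) : ℝ) ≤ 2 * t := by simp [aN, ← ht]; linarith
  have h1 : ((aN n 1 : ℤ) : ℝ) ≤ 2 * t := by simp [aN, ← ht]; linarith
  have h2 : ((aN n 2 : ℤ) : ℝ) ≤ 2 * t := by simp [aN, ← ht]; linarith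
  have h3 : ((aN n 3 : ℤ) : ℝ) ≤ 2 * t := by simp [aN, ← ht]; linarith
  have h4 : ((aN n 4 : ℤ) : ℝ) ≤ t^2 := by simp [aN, ← ht]
  have h5 : ((aN n 5 : ℤ) : ℝ) ≤ 2 := by simp [aN]
  have p0 := (hp 0).le
  have p1 := (hp 1).le
  have p2 := (hp 2).le
  have p3 := (hp 3).le
  have p4 := (hp 4).le
  have p5 := (hp 5).le
  rw [Fin.prod_univ_six]
  calc _ ≤ (2 * t) * (2 * t) * (2 * t) * (2 * t) * t^2 * 2 := by
        gcongr
    _ = 32 * t^6 := by ring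

theorem prodB_leN (n : ℕ) (hn : 17 ≤ n) :
    ∏ j, |((bN n j : ℤ) : ℝ)| ≤ 12 * 10^11 * (n * ((2:ℝ)^n)^4) := by
  have h : (10:ℝ)^5 ≤ (2:ℝ)^n := by exact_mod_cast two_pow_ge n hn
  obtain ⟨t, ht⟩ : ∃ t : ℝ, t = (2:ℝ)^n := ⟨_, rfl⟩
  rw [← ht] at h ⊢
  have h0 : |((bN n 0 : ℤ) : ℝ)| ≤ 100 * t := by
    have e : ((bN n 0 : ℤ) : ℝ) = -35 * t + 196 := by simp [bN, ← ht]
    rw [e, abs_le]; constructor <;> linarith
  have h1 : |((bN n 1 : ℤ) : ℝ)| ≤ 100 * t := by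
    have e : ((bN n 1 : ℤ) : ℝ) = 35 * t + 196 := by simp [bN, ← ht]
    rw [e, abs_le]; constructor <;> linarith
  have h2 : |((bN n 2 : ℤ) : ℝ)| ≤ 100 * t := by
    have e : ((bN n 2 : ℤ) : ℝ) = 70 * t + (-175) := by simp [bN, ← ht]
    rw [e, abs_le]; constructor <;> linarith
  have h3 : |((bN n 3 : ℤ) : ℝ)| ≤ 100 * t := by
    have e : ((bN n 3 : ℤ) : ℝ) = -70 * t + (-175) := by simp [bN, ← ht]
    rw [e, abs_le]; constructor <;> linarith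
  have h4 : |((bN n 4 : ℤ) : ℝ)| ≤ 100 := by
    have e : ((bN n 4 : ℤ) : ℝ) = -81 := by simp [bN]
    rw [e, abs_le]; constructor <;> norm_num
  have h5 : |((bN n 5 : ℤ) : ℝ)| ≤ 120 * n := by
    have e : ((bN n 5 : ℤ) : ℝ) = 120 * n := by simp [bN]
    rw [e, abs_of_nonneg (by positivity)]
  have ht0 : 0 ≤ t := by linarith
  rw [Fin.prod_univ_six]
  calc _ ≤ (100 * t) * (100 * t) * (100 * t) * (100 * t) * 100 * (120 * n) := by
        gcongr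
    _ = 12 * 10^11 * (n * t^4) := by ring

/-- the exponents for `m = 6 + k` factors -/
def bP (k : ℕ) (n : ℕ) : Fin (6 + k) → ℤ := Fin.append (bN n) (fun _ => 1)

/-- the integers for `m = 6 + k` factors -/
def aP (k : ℕ) (n : ℕ) : Fin (6 + k) → ℤ := Fin.append (aN n) (fun _ => 1)

theorem aP_pos (k n : ℕ) (hn : 17 ≤ n) (j : Fin (6 + k)) : 0 < aP k n j := by
  refine Fin.addCases (fun i => ?_) (fun i => ?_) j
  · rw [aP, Fin.append_left]; exact aN_pos n hn i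
  · rw [aP, Fin.append_right]; norm_num

theorem bP_ne (k n : ℕ) (hn : 17 ≤ n) (j : Fin (6 + k)) : bP k n j ≠ 0 := by
  refine Fin.addCases (fun i => ?_) (fun i => ?_) j
  · rw [bP, Fin.append_left]; exact bN_ne n hn i
  · rw [bP, Fin.append_right]; norm_num

theorem prodP (k n : ℕ) (hn : 17 ≤ n) :
    ∏ j, ((aP k n j : ℤ) : ℝ) ^ (bP k n j) = Real.exp (G ((2:ℝ)^n)) := by
  rw [Fin.prod_univ_add]
  simp only [aP, bP, Fin.append_left, Fin.append_right]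
  rw [prod_eqN n hn]
  simp

/-- the product of all `|b_j|` and all `|a_j|` -/
theorem sizeP (k n : ℕ) :
    (∏ j, |((bP k n j : ℤ) : ℝ)|) * (∏ j, |((aP k n j : ℤ) : ℝ)|) =
      (∏ j, |((bN n j : ℤ) : ℝ)|) * (∏ j, |((aN n j : ℤ) : ℝ)|) := by
  rw [Fin.prod_univ_add, Fin.prod_univ_add (f := fun j => |((aP k n j : ℤ) : ℝ)|)]
  simp only [aP, bP, Fin.append_left, Fin.append_right]
  simp

theorem size_le (k n : ℕ) (hn : 17 ≤ n) :
    (∏ j, |((bP k n j : ℤ) : ℝ)|) * (∏ j, |((aP k n j : ℤ) : ℝ)|) ≤ 10^14 * (n * ((2:ℝ)^n)^10) := by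
  rw [sizeP]
  have h1 := prodB_leN n hn
  have h2 := prodA_leN n hn
  calc _ ≤ (12 * 10^11 * (n * ((2:ℝ)^n)^4)) * (32 * ((2:ℝ)^n)^6) := by
        apply mul_le_mul h1 h2
        · exact Finset.prod_nonneg fun _ _ => abs_nonneg _
        · positivity
    _ = (12 * 32 * 10^11) * (n * ((2:ℝ)^n)^10) := by ring
    _ ≤ 10^14 * (n * ((2:ℝ)^n)^10) := by
        gcongr
        norm_num

theorem le_size (k n : ℕ) (hn : 17 ≤ n) :
    (2:ℝ)^n ≤ (∏ j, |((bP k n j : ℤ) : ℝ)|) * (∏ j, |((aP k n j : ℤ) : ℝ)|) := by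
  have hA1 : ∀ j, (1:ℝ) ≤ |((aN n j : ℤ) : ℝ)| := by
    intro j
    have := aN_pos n hn j
    rw [← Int.cast_abs]
    exact_mod_cast Int.one_le_abs this.ne'
  have hB1 : ∀ j, (1:ℝ) ≤ |((bN n j : ℤ) : ℝ)| := by
    intro j
    rw [← Int.cast_abs]
    exact_mod_cast Int.one_le_abs (bN_ne n hn j)
  have h1 : (2:ℝ)^n ≤ |((aN n 1 : ℤ) : ℝ)| := by
    have e : ((aN n 1 : ℤ) : ℝ) = (2:ℝ)^n + 6 := by simp [aN]
    rw [e, abs_of_pos (by positivity)]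
    linarith
  rw [sizeP]
  have e1 : (1:ℝ) ≤ ∏ j, |((bN n j : ℤ) : ℝ)| := by
    calc (1:ℝ) = ∏ _j : Fin 6, (1:ℝ) := by simp
      _ ≤ _ := Finset.prod_le_prod (fun _ _ => by norm_num) (fun j _ => hB1 j)
  have e2 : (2:ℝ)^n ≤ ∏ j, |((aN n j : ℤ) : ℝ)| := by
    rw [← Finset.mul_prod_erase Finset.univ _ (Finset.mem_univ (1 : Fin 6))]
    have e3 : (1:ℝ) ≤ ∏ j ∈ Finset.univ.erase (1 : Fin 6), |((aN n j : ℤ) : ℝ)| := by
      calc (1:ℝ) = ∏ _j ∈ Finset.univ.erase (1 : Fin 6), (1:ℝ) := by simp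
        _ ≤ _ := Finset.prod_le_prod (fun _ _ => by norm_num) (fun j _ => hA1 _)
    have h0 : (0:ℝ) ≤ (2:ℝ)^n := by positivity
    nlinarith
  have h0 : (0:ℝ) ≤ (2:ℝ)^n := by positivity
  nlinarith

theorem le_sup (k n : ℕ) (hn : 17 ≤ n) :
    (2:ℝ)^n ≤ ((Finset.univ.sup fun j => (bP k n j).natAbs : ℕ) : ℝ) := by
  have ht := two_pow_ge n hn
  have h1 : (bP k n (Fin.castAdd k 1)).natAbs ≤ (Finset.univ.sup fun j => (bP k n j).natAbs) :=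
    Finset.le_sup (f := fun j => (bP k n j).natAbs) (Finset.mem_univ _)
  have h2 : bP k n (Fin.castAdd k 1) = 35 * 2^n + 196 := by
    rw [bP, Fin.append_left]
    simp [bN]
  rw [h2] at h1
  obtain ⟨t, htd⟩ : ∃ t : ℤ, t = 2^n := ⟨_, rfl⟩
  have hc : (2:ℝ)^n = (t : ℝ) := by rw [htd]; push_cast; rfl
  rw [← htd] at h1 ht
  rw [hc]
  have h3 : t ≤ ((35 * t + 196).natAbs : ℤ) := by omega
  have h4 : t ≤ ((Finset.univ.sup fun j => (bP k n j).natAbs : ℕ) : ℤ) :=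
    h3.trans (by exact_mod_cast h1)
  exact_mod_cast h4

/-- the family, with all estimates -/
theorem core (k n : ℕ) (hn : 17 ≤ n) :
    (∀ j, 0 < aP k n j) ∧ (∀ j, bP k n j ≠ 0) ∧
    (∏ j, ((aP k n j : ℤ) : ℝ) ^ (bP k n j)) ≠ 1 ∧
    (2:ℝ)^n ≤ (∏ j, |((bP k n j : ℤ) : ℝ)|) * (∏ j, |((aP k n j : ℤ) : ℝ)|) ∧
    |(∏ j, ((aP k n j : ℤ) : ℝ) ^ (bP k n j)) - 1| ≤ 10^22 *
      Real.log ((∏ j, |((bP k n j : ℤ) : ℝ)|) * (∏ j, |((aP k n j : ℤ) : ℝ)|)) /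
      ((∏ j, |((bP k n j : ℤ) : ℝ)|) * (∏ j, |((aP k n j : ℤ) : ℝ)|)) ∧
    ((∏ j, |((bP k n j : ℤ) : ℝ)|) * (∏ j, |((aP k n j : ℤ) : ℝ)|)) ^ (1/10 : ℝ) ≤
      10^3 * (Real.log ((∏ j, |((bP k n j : ℤ) : ℝ)|) * (∏ j, |((aP k n j : ℤ) : ℝ)|)) *
        ((Finset.univ.sup fun j => (bP k n j).natAbs : ℕ) : ℝ)) := by
  have h : (10:ℝ)^5 ≤ (2:ℝ)^n := by exact_mod_cast two_pow_ge n hn
  have hF := G_pos ((2:ℝ)^n) h
  have hs := size_le k n hn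
  have hl := le_size k n hn
  have hB := le_sup k n hn
  have hP := prodP k n hn
  have hn1 : (1:ℝ) ≤ n := by
    have : 1 ≤ n := by omega
    exact_mod_cast this
  have hlog : (n:ℝ) * Real.log 2 ≤ Real.log ((∏ j, |((bP k n j : ℤ) : ℝ)|) * (∏ j, |((aP k n j : ℤ) : ℝ)|)) := by
    rw [← Real.log_pow]
    exact Real.log_le_log (by positivity) hl
  generalize hX : (∏ j, |((bP k n j : ℤ) : ℝ)|) * (∏ j, |((aP k n j : ℤ) : ℝ)|) = X at *
  generalize ((Finset.univ.sup fun j => (bP k n j).natAbs : ℕ) : ℝ) = B at *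
  generalize htd : (2:ℝ)^n = t at *
  have ht0 : (0:ℝ) < t := lt_of_lt_of_le (by norm_num) h
  have hX0 : 0 < X := lt_of_lt_of_le ht0 hl
  have hl2 := Real.log_two_gt_d9
  have hnX : (n:ℝ) ≤ 2 * Real.log X := by nlinarith
  have hlogX : 0 ≤ Real.log X := by linarith
  have hroot : X ^ (1/10 : ℝ) ≤ 10^2 * (n * t) := by
    have e1 : X ≤ (10^2 * (n * t)) ^ 10 := by
      have e2 : (n:ℝ) ≤ (n:ℝ)^10 := by
        calc (n:ℝ) = (n:ℝ)^1 := (pow_one _).symm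
          _ ≤ (n:ℝ)^10 := pow_le_pow_right₀ hn1 (by norm_num)
      calc X ≤ 10^14 * (n * t^10) := hs
        _ ≤ 10^20 * ((n:ℝ)^10 * t^10) := by gcongr <;> norm_num
        _ = (10^2 * (n * t)) ^ 10 := by ring
    calc X ^ (1/10 : ℝ) ≤ ((10^2 * (n * t)) ^ 10) ^ (1/10 : ℝ) :=
          Real.rpow_le_rpow hX0.le e1 (by norm_num)
      _ = 10^2 * (n * t) := by
          rw [← Real.rpow_natCast, ← Real.rpow_mul (by positivity)]
          norm_num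
  refine ⟨aP_pos k n hn, bP_ne k n hn, ?_, hl, ?_, ?_⟩
  · rw [hP]
    intro h1
    rw [Real.exp_eq_one_iff] at h1
    exact hF.1.ne' h1
  · rw [hP]
    have hF1 : G t ≤ 1 := by
      refine hF.2.trans ?_
      rw [div_le_one (by positivity)]
      calc (10:ℝ)^7 ≤ (10^5)^10 := by norm_num
        _ ≤ t^10 := by gcongr
    have hexp : |Real.exp (G t) - 1| ≤ 2 * (10^7 / t^10) := by
      have h1 : |G t| ≤ 1 := by rw [abs_of_pos hF.1]; exact hF1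
      have h2 := Real.abs_exp_sub_one_le h1
      rw [abs_of_pos hF.1] at h2
      linarith [hF.2]
    refine hexp.trans ?_
    rw [← mul_div_assoc, div_le_div_iff₀ (by positivity) hX0]
    calc 2 * 10^7 * X ≤ 2 * 10^7 * (10^14 * (n * t^10)) := by gcongr
      _ = 2 * 10^21 * (n * t^10) := by ring
      _ ≤ 2 * 10^21 * ((2 * Real.log X) * t^10) := by gcongr
      _ = 4 * 10^21 * (Real.log X * t^10) := by ring
      _ ≤ 10^22 * (Real.log X * t^10) := by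
          refine mul_le_mul_of_nonneg_right (by norm_num) (by positivity)
      _ = 10^22 * Real.log X * t^10 := by ring
  · calc X ^ (1/10 : ℝ) ≤ 10^2 * (n * t) := hroot
      _ ≤ 10^2 * ((2 * Real.log X) * B) := by gcongr
      _ = 2 * 10^2 * (Real.log X * B) := by ring
      _ ≤ 10^3 * (Real.log X * B) := by
          have hB0 : 0 ≤ B := ht0.le.trans hB
          refine mul_le_mul_of_nonneg_right (by norm_num) (by positivity)

end Pool.Agent.Y881.LW.Six
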