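import Pool.Agent.Y881.LW.Fam

/-! Project LW2: the size of the products (helper881). -/

set_option autoImplicit false

open Finset

namespace Pool.Agent.Y881.LW

open Pool.Agent.Y823.LW

theorem prodA_leN (n : ℕ) (hn : 24 ≤ n) :
    ∏ j, |((aN n j : ℤ) : ℝ)| ≤ 32 * ((2:ℝ)^n)^10 := by
  have h : (10:ℝ)^7 ≤ (2:ℝ)^n := by exact_mod_cast two_pow_ge n hn
  obtain ⟨t, ht⟩ : ∃ t : ℝ, t = (2:ℝ)^n := ⟨_, rfl⟩
  rw [← ht] at h ⊢
  have hp : ∀ j, (0:ℝ) < ((aN n j : ℤ) : ℝ) := fun j => by exact_mod_cast aN_pos n hn j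
  have habs : ∏ j, |((aN n j : ℤ) : ℝ)| = ∏ j, ((aN n j : ℤ) : ℝ) :=
    Finset.prod_congr rfl fun j _ => abs_of_pos (hp j)
  rw [habs]
  have h0 : ((aN n 0 : ℤ) : ℝ) ≤ 2 * t := by simp [aN, ← ht]; linarith
  have h1 : ((aN n 1 : ℤ) : ℝ) ≤ 2 * t := by simp [aN, ← ht]; linarith
  have h2 : ((aN n 2 : ℤ) : ℝ) ≤ 2 * t := by simp [aN, ← ht]; linarith
  have h3 : ((aN n 3 : ℤ) : ℝ) ≤ 2 * t := by simp [aN, ← ht]; linarith
  have h4 : ((aN n 4 : ℤ) : ℝ) ≤ t^2 := by simp [aN, ← ht]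
  have h5 : ((aN n 5 : ℤ) : ℝ) ≤ t^2 := by simp [aN, ← ht]
  have h6 : ((aN n 6 : ℤ) : ℝ) ≤ t^2 := by simp [aN, ← ht]
  have h7 : ((aN n 7 : ℤ) : ℝ) ≤ 2 := by simp [aN]
  have p0 := (hp 0).le
  have p1 := (hp 1).le
  have p2 := (hp 2).le
  have p3 := (hp 3).le
  have p4 := (hp 4).le
  have p5 := (hp 5).le
  have p6 := (hp 6).le
  have p7 := (hp 7).le
  rw [Fin.prod_univ_eight]
  calc _ ≤ (2 * t) * (2 * t) * (2 * t) * (2 * t) * t^2 * t^2 * t^2 * 2 := by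
        gcongr
    _ = 32 * t^10 := by ring

theorem prodB_leN (n : ℕ) (hn : 24 ≤ n) :
    ∏ j, |((bN n j : ℤ) : ℝ)| ≤ 10^68 * (n * ((2:ℝ)^n)^4) := by
  have hc : (((2:ℤ)^n : ℤ) : ℝ) = (2:ℝ)^n := by push_cast; rfl
  have ht := two_pow_ge n hn
  rw [Fin.prod_univ_castSucc, bN_last]
  simp only [bN_castSucc]
  rw [Fin.prod_univ_seven]
  have h0 := absb _ ht (Fin.castSucc (0 : Fin 7)) (by decide)
  have h1 := absb _ ht (Fin.castSucc (1 : Fin 7)) (by decide)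
  have h2 := absb _ ht (Fin.castSucc (2 : Fin 7)) (by decide)
  have h3 := absb _ ht (Fin.castSucc (3 : Fin 7)) (by decide)
  have h4 := absb2 ((2:ℤ)^n) (Fin.castSucc (4 : Fin 7)) (by decide)
  have h5 := absb2 ((2:ℤ)^n) (Fin.castSucc (5 : Fin 7)) (by decide)
  have h6 := absb2 ((2:ℤ)^n) (Fin.castSucc (6 : Fin 7)) (by decide)
  rw [hc] at h0 h1 h2 h3
  have h7 : |((-117318768 * (n : ℤ) : ℤ) : ℝ)| ≤ 10^9 * n := by
    push_cast
    rw [abs_mul]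
    have : |(n : ℝ)| = n := abs_of_nonneg (Nat.cast_nonneg n)
    rw [this]
    refine mul_le_mul_of_nonneg_right ?_ (Nat.cast_nonneg n)
    rw [abs_neg, abs_of_pos (by norm_num)]
    norm_num
  calc _ ≤ (10^8 * (2:ℝ)^n) * (10^8 * (2:ℝ)^n) * (10^8 * (2:ℝ)^n) * (10^8 * (2:ℝ)^n) * 10^9 * 10^9 * 10^9 *
        (10^9 * n) := by
        gcongr
    _ = 10^68 * (n * ((2:ℝ)^n)^4) := by ring

/-- the exponents for `m = 8 + k` factors -/
def bP (k : ℕ) (n : ℕ) : Fin (8 + k) → ℤ := Fin.append (bN n) (fun _ => 1)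

/-- the integers for `m = 8 + k` factors -/
def aP (k : ℕ) (n : ℕ) : Fin (8 + k) → ℤ := Fin.append (aN n) (fun _ => 1)

theorem aP_pos (k n : ℕ) (hn : 24 ≤ n) (j : Fin (8 + k)) : 0 < aP k n j := by
  refine Fin.addCases (fun i => ?_) (fun i => ?_) j
  · rw [aP, Fin.append_left]; exact aN_pos n hn i
  · rw [aP, Fin.append_right]; norm_num

theorem bP_ne (k n : ℕ) (hn : 24 ≤ n) (j : Fin (8 + k)) : bP k n j ≠ 0 := by
  refine Fin.addCases (fun i => ?_) (fun i => ?_) j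
  · rw [bP, Fin.append_left]; exact bN_ne n hn i
  · rw [bP, Fin.append_right]; norm_num

theorem prodP (k n : ℕ) (hn : 24 ≤ n) :
    ∏ j, ((aP k n j : ℤ) : ℝ) ^ (bP k n j) = Real.exp (F ((2:ℝ)^n)) := by
  rw [Fin.prod_univ_add]
  simp only [aP, bP, Fin.append_left, Fin.append_right]
  rw [prod_eqN n hn]
  simp

/-- the product of all `|b_j|` and all `|a_j|` -/
theorem sizeP (k n : ℕ) :
    (∏ j, |((bP k n j : ℤ) : ℝ)|) * (∏ j, |((aP k n j : ℤ) : ℝ)|) =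
      (∏ j, |((bN n j : ℤ) : ℝ)|) * (∏ j, |((aN n j : ℤ) : ℝ)|) := by
  rw [Fin.prod_univ_add, Fin.prod_univ_add (f := fun j => |((aP k n j : ℤ) : ℝ)|)]
  simp only [aP, bP, Fin.append_left, Fin.append_right]
  simp

theorem size_le (k n : ℕ) (hn : 24 ≤ n) :
    (∏ j, |((bP k n j : ℤ) : ℝ)|) * (∏ j, |((aP k n j : ℤ) : ℝ)|) ≤ 10^70 * (n * ((2:ℝ)^n)^14) := by
  rw [sizeP]
  have h1 := prodB_leN n hn
  have h2 := prodA_leN n hn
  calc _ ≤ (10^68 * (n * ((2:ℝ)^n)^4)) * (32 * ((2:ℝ)^n)^10) := by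
        apply mul_le_mul h1 h2
        · exact Finset.prod_nonneg fun _ _ => abs_nonneg _
        · positivity
    _ = (32 * 10^68) * (n * ((2:ℝ)^n)^14) := by ring
    _ ≤ 10^70 * (n * ((2:ℝ)^n)^14) := by
        gcongr
        norm_num

theorem le_size (k n : ℕ) (hn : 24 ≤ n) :
    (2:ℝ)^n ≤ (∏ j, |((bP k n j : ℤ) : ℝ)|) * (∏ j, |((aP k n j : ℤ) : ℝ)|) := by
  have hA1 : ∀ j, (1:ℝ) ≤ |((aN n j : ℤ) : ℝ)| := by
    intro j
    have := aN_pos n hn j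
    rw [← Int.cast_abs]
    exact_mod_cast Int.one_le_abs this.ne'
  have hB1 : ∀ j, (1:ℝ) ≤ |((bN n j : ℤ) : ℝ)| := by
    intro j
    rw [← Int.cast_abs]
    exact_mod_cast Int.one_le_abs (bN_ne n hn j)
  have h1 : (2:ℝ)^n ≤ |((aN n 1 : ℤ) : ℝ)| := by
    have e : ((aN n 1 : ℤ) : ℝ) = (2:ℝ)^n + 60 := by simp [aN]
    rw [e, abs_of_pos (by positivity)]
    linarith
  rw [sizeP]
  have e1 : (1:ℝ) ≤ ∏ j, |((bN n j : ℤ) : ℝ)| := by
    calc (1:ℝ) = ∏ _j : Fin 8, (1:ℝ) := by simp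
      _ ≤ _ := Finset.prod_le_prod (fun _ _ => by norm_num) (fun j _ => hB1 j)
  have e2 : (2:ℝ)^n ≤ ∏ j, |((aN n j : ℤ) : ℝ)| := by
    rw [← Finset.mul_prod_erase Finset.univ _ (Finset.mem_univ (1 : Fin 8))]
    have e3 : (1:ℝ) ≤ ∏ j ∈ Finset.univ.erase (1 : Fin 8), |((aN n j : ℤ) : ℝ)| := by
      calc (1:ℝ) = ∏ _j ∈ Finset.univ.erase (1 : Fin 8), (1:ℝ) := by simp
        _ ≤ _ := Finset.prod_le_prod (fun _ _ => by norm_num) (fun j _ => hA1 _)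
    have h0 : (0:ℝ) ≤ (2:ℝ)^n := by positivity
    nlinarith
  have h0 : (0:ℝ) ≤ (2:ℝ)^n := by positivity
  nlinarith

theorem le_sup (k n : ℕ) (hn : 24 ≤ n) :
    (2:ℝ)^n ≤ ((Finset.univ.sup fun j => (bP k n j).natAbs : ℕ) : ℝ) := by
  have ht := two_pow_ge n hn
  have h1 : (bP k n (Fin.castAdd k 0)).natAbs ≤ (Finset.univ.sup fun j => (bP k n j).natAbs) :=
    Finset.le_sup (f := fun j => (bP k n j).natAbs) (Finset.mem_univ _)
  have h2 : bP k n (Fin.castAdd k 0) = 5148297 * 2^n + (-308224840) := by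
    rw [bP, Fin.append_left]
    simp [bN]
  rw [h2] at h1
  obtain ⟨t, htd⟩ : ∃ t : ℤ, t = 2^n := ⟨_, rfl⟩
  have hc : (2:ℝ)^n = (t : ℝ) := by rw [htd]; push_cast; rfl
  rw [← htd] at h1 ht
  rw [hc]
  have h3 : t ≤ ((5148297 * t + (-308224840)).natAbs : ℤ) := by omega
  have h4 : t ≤ ((Finset.univ.sup fun j => (bP k n j).natAbs : ℕ) : ℤ) :=
    h3.trans (by exact_mod_cast h1)
  exact_mod_cast h4


end Pool.Agent.Y881.LW
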